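import Pool.Agent.DB.Top.Side

/-!
# DB-T-Conn: the sides of a point of an edge are connected

PLAN.  Every point of `{p ∈ real G | θ < sg G a b p}` is joined to `ev b` by a connected subset
(`isConnected_of_... `: `IsPreconnected` from `isPreconnected_of_forall (x := ev b)`).  A point `p` of
the set: (1) `p` on the edge `ab`: the segment `{(1 - t) ev a + t ev b | t ∈ [sg p, 1]}`;
(2) otherwise `p` is on a vertex or an edge `uv` with `sg = 1` on the whole edge (`sg_other`), so it is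
joined to `ev u`, and `ev u` to `ev b` by `side_walk`: the union of the segments of the edges `xy` with
`side x`, `side y` (on them `sg = 1`), induction on `Relation.ReflTransGen`.
The same argument for `θ ≤ sg`.  `real_conn`: the same with all of `G` (`hG.connected`).
-/

namespace Pool.Agent.DB

open Set

variable {V : Type} [Fintype V] [DecidableEq V] {G : SimpleGraph V}

omit [Fintype V] in
private theorem seg_cont (u v : V) :
    Continuous (fun t : ℝ => (1 - t) • ev u + t • (ev v : V → ℝ)) := by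
  fun_prop

private theorem seg_sub {a b u v : V} (huv : G.Adj u v) (hu : side G a b u) (hv : side G a b v)
    (Q : ℝ → Prop) (hQ1 : Q 1) :
    (fun t : ℝ => (1 - t) • ev u + t • (ev v : V → ℝ)) '' Icc 0 1 ⊆
      {p ∈ real G | Q (sg G a b p)} := by
  rintro _ ⟨t, ht, rfl⟩
  refine ⟨edge_mem huv ht.1 ht.2, ?_⟩
  show Q (sg G a b ((1 - t) • ev u + t • ev v))
  rw [sg_comb, sg_ev_side hu, sg_ev_side hv]
  have : (1 - t) * 1 + t * 1 = (1 : ℝ) := by ring
  rw [this]
  exact hQ1

omit [Fintype V] in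
private theorem seg_left (u v : V) :
    (ev u : V → ℝ) ∈ (fun t : ℝ => (1 - t) • ev u + t • (ev v : V → ℝ)) '' Icc 0 1 :=
  ⟨0, by simp, by simp⟩

omit [Fintype V] in
private theorem seg_right (u v : V) :
    (ev v : V → ℝ) ∈ (fun t : ℝ => (1 - t) • ev u + t • (ev v : V → ℝ)) '' Icc 0 1 :=
  ⟨1, by simp, by simp⟩

private theorem walk_conn (hG : G.IsTree) {a b : V} (h : G.Adj a b) (Q : ℝ → Prop) (hQ1 : Q 1)
    {v : V} (hv : side G a b v) :
    ∃ T ⊆ {p ∈ real G | Q (sg G a b p)}, ev b ∈ T ∧ ev v ∈ T ∧ IsPreconnected T := by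
  have := side_walk hG h hv
  induction this with
  | refl =>
    refine ⟨{ev b}, ?_, rfl, rfl, isPreconnected_singleton⟩
    rintro _ rfl
    refine ⟨ev_mem b, ?_⟩
    show Q (sg G a b (ev b))
    rw [sg_ev_side (side_right G a b)]
    exact hQ1
  | @tail x y hx hxy ih =>
    obtain ⟨T, hT, hb, hx', hc⟩ := ih hxy.2.1
    refine ⟨T ∪ (fun t : ℝ => (1 - t) • ev x + t • (ev y : V → ℝ)) '' Icc 0 1,
      union_subset hT (seg_sub hxy.1 hxy.2.1 hxy.2.2 Q hQ1), Or.inl hb, Or.inr (seg_right x y),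
      hc.union (ev x) hx' (seg_left x y) ?_⟩
    exact isPreconnected_Icc.image _ (seg_cont x y).continuousOn

private theorem conn_core (hG : G.IsTree) {a b : V} (h : G.Adj a b) (Q : ℝ → Prop) (hQ1 : Q 1)
    (hup : ∀ s t, Q s → s ≤ t → t ≤ 1 → Q t) (hpos : ∀ s, Q s → 0 < s) :
    IsConnected {p ∈ real G | Q (sg G a b p)} := by
  have hb : ev b ∈ {p ∈ real G | Q (sg G a b p)} := by
    refine ⟨ev_mem b, ?_⟩
    show Q (sg G a b (ev b))
    rw [sg_ev_side (side_right G a b)]
    exact hQ1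
  refine ⟨⟨_, hb⟩, isPreconnected_of_forall (ev b) ?_⟩
  rintro p ⟨hp, hQ⟩
  have h0 := hpos _ hQ
  rcases lt_or_eq_of_le (sg_le_one a b hp) with h1 | h1
  · have hpe := sg_mid hG h hp h0 h1
    refine ⟨(fun t : ℝ => (1 - t) • ev a + t • (ev b : V → ℝ)) '' Icc (sg G a b p) 1, ?_,
      ⟨1, ⟨h1.le, le_refl _⟩, by simp⟩, ⟨sg G a b p, ⟨le_refl _, h1.le⟩, hpe.symm⟩,
      isPreconnected_Icc.image _ (seg_cont a b).continuousOn⟩
    rintro _ ⟨t, ht, rfl⟩
    refine ⟨edge_mem h (h0.le.trans ht.1) ht.2, ?_⟩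
    show Q (sg G a b ((1 - t) • ev a + t • ev b))
    rw [sg_edge hG h]
    exact hup _ _ hQ ht.1 ht.2
  · rcases real_cases hp with ⟨v, rfl⟩ | ⟨u, v, huv, t, ht0, ht1, rfl⟩
    · have hv : side G a b v := by
        by_contra hv
        rw [sg_ev_not hv] at h1
        norm_num at h1
      exact walk_conn hG h Q hQ1 hv
    · by_cases he : s(u, v) = s(a, b)
      · exfalso
        rw [Sym2.eq_iff] at he
        rcases he with ⟨rfl, rfl⟩ | ⟨rfl, rfl⟩
        · rw [sg_edge hG h] at h1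
          linarith
        · rw [edge_symm, sg_edge hG h] at h1
          linarith
      · rw [sg_other huv he] at h1
        have hu : side G a b u := by
          by_contra hu
          rw [sg_ev_not hu] at h1
          norm_num at h1
        have hv : side G a b v := (side_adj huv he).1 hu
        obtain ⟨T, hT, hbT, huT, hc⟩ := walk_conn hG h Q hQ1 hu
        refine ⟨T ∪ (fun t : ℝ => (1 - t) • ev u + t • (ev v : V → ℝ)) '' Icc 0 1,
          union_subset hT (seg_sub huv hu hv Q hQ1), Or.inl hbT,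
          Or.inr ⟨t, ⟨ht0.le, ht1.le⟩, rfl⟩, hc.union (ev u) huT (seg_left u v) ?_⟩
        exact isPreconnected_Icc.image _ (seg_cont u v).continuousOn

theorem conn_gt (hG : G.IsTree) {a b : V} (h : G.Adj a b) {θ : ℝ} (h0 : 0 ≤ θ) (h1 : θ < 1) :
    IsConnected {p ∈ real G | θ < sg G a b p} :=
  conn_core hG h (fun s => θ < s) h1 (fun _ _ hs hst _ => lt_of_lt_of_le hs hst)
    (fun _ hs => lt_of_le_of_lt h0 hs)

theorem conn_ge (hG : G.IsTree) {a b : V} (h : G.Adj a b) {θ : ℝ} (h0 : 0 < θ) (h1 : θ ≤ 1) :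
    IsConnected {p ∈ real G | θ ≤ sg G a b p} :=
  conn_core hG h (fun s => θ ≤ s) h1 (fun _ _ hs hst _ => hs.trans hst)
    (fun _ hs => lt_of_lt_of_le h0 hs)

end Pool.Agent.DB
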