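import Pool.Agent.DB.Top.Basic

/-!
# DB-T-Cpt: `real G` is compact; path connectedness; a homeomorphism criterion

PLAN.  `real G` is the finite union over the pairs `(a, b)` with `a = b ∨ G.Adj a b` of the images of
`Icc 0 1` under `t ↦ (1 - t) • ev a + t • ev b` (`isCompact_iUnion`/`Set.Finite.isCompact_biUnion`).
`real_homeo`: a continuous bijection from a compact space to a Hausdorff space is a homeomorphism
(`Continuous.homeoOfEquivCompactToT2` with `Equiv.ofBijective` of the restricted map).
`real_path_surj`: use `Path` in the subtype `real G` (or continuous maps on `Icc 0 1`): the edge path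
from `a` to `b` for adjacent `a, b`, `Path.trans`, `Path.symm`; `G.Connected` gives paths between
vertices (induction on walks); by induction on a finite set `s` of ordered adjacent pairs there is a
path from `ev a` to `ev b` whose range contains the segments of all pairs of `s` (go
`a → c → d → c → a` first, then the old path; `Path.trans_range`); take all pairs.  The range also
contains all vertices (every vertex is on an edge, unless `V` has one point).  Extend with
`Path.extend`.
-/

namespace Pool.Agent.DB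

open Set

variable {V : Type} [Fintype V] [DecidableEq V] {G : SimpleGraph V}

private theorem seg_cont (a b : V) :
    Continuous (fun t : ℝ => (1 - t) • ev a + t • (ev b : V → ℝ)) :=
  ((continuous_const.sub continuous_id).smul continuous_const).add
    (continuous_id.smul continuous_const)

theorem real_isCompact (G : SimpleGraph V) : IsCompact (real G) := by
  have h : real G = ⋃ ab ∈ {ab : V × V | ab.1 = ab.2 ∨ G.Adj ab.1 ab.2},
      (fun t : ℝ => (1 - t) • ev ab.1 + t • (ev ab.2 : V → ℝ)) '' Icc 0 1 := by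
    ext p
    simp only [mem_iUnion]
    constructor
    · rintro ⟨a, b, hab, t, h0, h1, rfl⟩
      exact ⟨(a, b), hab, t, ⟨h0, h1⟩, rfl⟩
    · rintro ⟨⟨a, b⟩, hab, t, ⟨h0, h1⟩, rfl⟩
      exact ⟨a, b, hab, t, h0, h1, rfl⟩
  rw [h]
  refine (Set.toFinite _).isCompact_biUnion ?_
  intro ab _
  exact isCompact_Icc.image (seg_cont ab.1 ab.2)

theorem real_homeo {W : Type} [Fintype W] [DecidableEq W] {A : SimpleGraph W}
    (P : (W → ℝ) → (V → ℝ)) (hP : Continuous P) (hm : MapsTo P (real A) (real G))
    (hi : InjOn P (real A)) (hs : SurjOn P (real A) (real G)) :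
    ∃ Φ : real A ≃ₜ real G, ∀ p, (Φ p).1 = P p.1 := by
  haveI : CompactSpace (real A) := isCompact_iff_compactSpace.mp (real_isCompact A)
  let g : real A → real G := fun p => ⟨P p.1, hm p.2⟩
  have hg : Continuous g := (hP.comp continuous_subtype_val).subtype_mk _
  have hb : Function.Bijective g := by
    constructor
    · intro p q h
      exact Subtype.ext (hi p.2 q.2 (congrArg Subtype.val h))
    · intro q
      obtain ⟨p, hp, h⟩ := hs q.2
      exact ⟨⟨p, hp⟩, Subtype.ext h⟩
  exact ⟨Continuous.homeoOfEquivCompactToT2 (f := Equiv.ofBijective g hb) hg, fun p => rfl⟩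

/-- the vertex `a` as a point of `real G` -/
private noncomputable def vpt (G : SimpleGraph V) (a : V) : real G := ⟨ev a, ev_mem a⟩

private theorem seg_path {a b : V} (h : a = b ∨ G.Adj a b) :
    ∃ γ : Path (vpt G a) (vpt G b), ∀ t : ℝ, t ∈ Icc (0 : ℝ) 1 →
      ∃ u, (γ u).1 = (1 - t) • ev a + t • ev b := by
  have hc : Continuous (fun u : unitInterval =>
      (⟨(1 - u.1) • ev a + u.1 • ev b, ⟨a, b, h, u.1, u.2.1, u.2.2, rfl⟩⟩ : real G)) :=
    ((seg_cont a b).comp continuous_subtype_val).subtype_mk _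
  refine ⟨⟨⟨_, hc⟩, ?_, ?_⟩, ?_⟩
  · apply Subtype.ext
    change (1 - ((0 : unitInterval) : ℝ)) • ev a + ((0 : unitInterval) : ℝ) • ev b = ev a
    rw [Set.Icc.coe_zero, sub_zero, one_smul, zero_smul, add_zero]
  · apply Subtype.ext
    change (1 - ((1 : unitInterval) : ℝ)) • ev a + ((1 : unitInterval) : ℝ) • ev b = ev b
    rw [Set.Icc.coe_one, sub_self, one_smul, zero_smul, zero_add]
  · intro t ht
    exact ⟨⟨t, ht⟩, rfl⟩

private theorem vpt_joined (hG : G.Connected) (a b : V) : Joined (vpt G a) (vpt G b) := by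
  obtain ⟨w⟩ := hG.preconnected a b
  induction w with
  | nil => exact Joined.refl _
  | cons h _ ih =>
    obtain ⟨γ, _⟩ := seg_path (Or.inr h)
    have h1 : Joined (vpt G _) (vpt G _) := ⟨γ⟩
    exact h1.trans ih

private theorem loop_cover (hG : G.Connected) (a : V) (s : Finset (V × V)) :
    ∃ γ : Path (vpt G a) (vpt G a), ∀ e ∈ s, (e.1 = e.2 ∨ G.Adj e.1 e.2) →
      ∀ t : ℝ, t ∈ Icc (0 : ℝ) 1 → ∃ u, (γ u).1 = (1 - t) • ev e.1 + t • ev e.2 := by
  induction s using Finset.induction_on with
  | empty =>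
    exact ⟨Path.refl _, fun e he => absurd he (Finset.notMem_empty e)⟩
  | insert e s _ ih =>
    obtain ⟨γ, hγ⟩ := ih
    by_cases he : e.1 = e.2 ∨ G.Adj e.1 e.2
    · obtain ⟨δ⟩ := vpt_joined hG a e.1
      obtain ⟨ε, hε⟩ := seg_path he
      refine ⟨((δ.trans (ε.trans ε.symm)).trans δ.symm).trans γ, ?_⟩
      intro e' he' h' t ht
      rcases Finset.mem_insert.mp he' with h1 | h1
      · subst h1
        obtain ⟨u, hu⟩ := hε t ht
        have h2 : ε u ∈ range (((δ.trans (ε.trans ε.symm)).trans δ.symm).trans γ) := by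
          rw [Path.trans_range, Path.trans_range, Path.trans_range, Path.trans_range]
          exact Or.inl (Or.inl (Or.inr (Or.inl ⟨u, rfl⟩)))
        obtain ⟨v, hv⟩ := h2
        exact ⟨v, by rw [hv, hu]⟩
      · obtain ⟨u, hu⟩ := hγ e' h1 h' t ht
        have h2 : γ u ∈ range (((δ.trans (ε.trans ε.symm)).trans δ.symm).trans γ) := by
          rw [Path.trans_range]
          exact Or.inr ⟨u, rfl⟩
        obtain ⟨v, hv⟩ := h2
        exact ⟨v, by rw [hv, hu]⟩
    · refine ⟨γ, ?_⟩
      intro e' he' h' t ht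
      rcases Finset.mem_insert.mp he' with h1 | h1
      · subst h1
        exact absurd h' he
      · exact hγ e' h1 h' t ht

theorem real_path_surj (hG : G.Connected) (a b : V) :
    ∃ γ : ℝ → V → ℝ, Continuous γ ∧ (∀ t, γ t ∈ real G) ∧ γ 0 = ev a ∧ γ 1 = ev b ∧
      ∀ p ∈ real G, ∃ t ∈ Icc (0 : ℝ) 1, γ t = p := by
  obtain ⟨γ, hγ⟩ := loop_cover hG a Finset.univ
  obtain ⟨δ⟩ := vpt_joined hG a b
  let η : Path (vpt G a) (vpt G b) := γ.trans δ
  refine ⟨fun t => (η.extend t).1, ?_, ?_, ?_, ?_, ?_⟩
  · exact continuous_subtype_val.comp η.continuous_extend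
  · intro t
    exact (η.extend t).2
  · change (η.extend 0).1 = ev a
    rw [Path.extend_zero]
    rfl
  · change (η.extend 1).1 = ev b
    rw [Path.extend_one]
    rfl
  · intro p hp
    obtain ⟨c, d, hcd, t, h0, h1, hpt⟩ := hp
    obtain ⟨u, hu⟩ := hγ (c, d) (Finset.mem_univ _) hcd t ⟨h0, h1⟩
    have h2 : γ u ∈ range η := by
      change γ u ∈ range (γ.trans δ)
      rw [Path.trans_range]
      exact Or.inl ⟨u, rfl⟩
    obtain ⟨v, hv⟩ := h2
    refine ⟨v.1, v.2, ?_⟩
    change (η.extend v.1).1 = p
    have h3 : η.extend v.1 = η v := by simp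
    rw [h3, hv, hu, hpt]

end Pool.Agent.DB
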