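import Pool.Agent.DB.Top.Side

/-!
# DB-T-Sep: separation in `real G` (T2, T3)

PLAN.  `sg_sep` (T2): if `sg G a b p = sg G a b q` for all edges then `p = q`: if `p` is an interior
point of an edge `ab` (`real_cases`) then `0 < sg G a b q < 1` and `sg_mid` gives `q = p`; the same
for `q`; if `p = ev v`, `q = ev w`, `v ≠ w`: by `exists_side` there is a neighbour `u` of `w` with
`side G w u v`: `sg (ev v) = 1`, `sg (ev w) = 0` (`side_left`).  If the values differ and the order is
the wrong one, replace `(a, b)` by `(b, a)` (`sg_swap`).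
`exists_dir`: `p ≠ ev w` has a coordinate `v ≠ w` with `p v ≠ 0` (otherwise `p = ev w` by `real_sum`);
`exists_side`; the sum is `≥ p v > 0`.
`dir_unique`: `0 < sg` gives `v` with `p v ≠ 0`, `side G w u v`, and `v'` with `p v' ≠ 0`,
`side G w u' v'`; by `real_supp` `v = v'` or adjacent; `side_unique`, resp. `side_adj`: an edge `v v'` which
is neither `w u` nor `w u'` keeps both sides; `v, v' ≠ w` (`side_left`), so it is neither.
`sg_clopen` (T3): on `real G` minus `ev w` the set `{0 < sg G w u}` is open, and its complement is the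
union of the open sets `{0 < sg G w u'}`, `u' ≠ u` (`exists_dir`, `dir_unique`); use
`IsPreconnected.subset_or_subset` or `isPreconnected_iff_subset_of_disjoint`.
-/

namespace Pool.Agent.DB

open Set

variable {V : Type} [Fintype V] [DecidableEq V] {G : SimpleGraph V}

/-- (T2) two different points are separated by an edge -/
theorem sg_sep (hG : G.IsTree) {p q : V → ℝ} (hp : p ∈ real G) (hq : q ∈ real G) (hne : p ≠ q) :
    ∃ a b, G.Adj a b ∧ sg G a b p < sg G a b q := by
  by_contra hcon
  push Not at hcon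
  have heq : ∀ a b, G.Adj a b → sg G a b p = sg G a b q := by
    intro a b h
    have h1 := hcon a b h
    have h2 := hcon b a h.symm
    rw [sg_swap hG h hp, sg_swap hG h hq] at h2
    linarith
  have key : ∀ {x y : V → ℝ}, y ∈ real G → (∀ a b, G.Adj a b → sg G a b x = sg G a b y) →
      (∃ a b, G.Adj a b ∧ ∃ t : ℝ, 0 < t ∧ t < 1 ∧ x = (1 - t) • ev a + t • ev b) → x = y := by
    rintro x y hy he ⟨a, b, hab, t, ht0, ht1, rfl⟩
    have h1 := he a b hab
    rw [sg_edge hG hab] at h1
    have h2 := sg_mid hG hab hy (by rw [← h1]; exact ht0) (by rw [← h1]; exact ht1)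
    rw [← h1] at h2
    exact h2.symm
  rcases real_cases hp with ⟨v, hv⟩ | hp'
  · rcases real_cases hq with ⟨w, hw⟩ | hq'
    · have hvw : v ≠ w := by
        rintro rfl
        exact hne (hv.trans hw.symm)
      obtain ⟨u, hu, hs⟩ := exists_side hG hvw
      have h1 := heq w u hu
      rw [hv, hw, sg_ev_side hs, sg_ev_not (side_left hG hu)] at h1
      exact one_ne_zero h1
    · exact hne (key hp (fun a b h => (heq a b h).symm) hq').symm
  · exact hne (key hq heq hp')

theorem exists_dir (hG : G.IsTree) {p : V → ℝ} (hp : p ∈ real G) {w : V} (hne : p ≠ ev w) :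
    ∃ u, G.Adj w u ∧ 0 < sg G w u p := by
  classical
  have h1 : ∃ v, v ≠ w ∧ p v ≠ 0 := by
    by_contra hcon
    push Not at hcon
    apply hne
    have hs := real_sum hp
    rw [Finset.sum_eq_single w (fun v _ hv => hcon v hv)
      (fun h => absurd (Finset.mem_univ w) h)] at hs
    funext v
    rw [ev_apply]
    by_cases hv : v = w
    · rw [if_pos hv, hv, hs]
    · rw [if_neg hv, hcon v hv]
  obtain ⟨v, hv, hpv⟩ := h1
  obtain ⟨u, hu, hs⟩ := exists_side hG hv
  refine ⟨u, hu, ?_⟩
  have hpos : 0 < p v := lt_of_le_of_ne (real_nonneg hp v) (Ne.symm hpv)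
  have h2 : (if side G w u v then p v else 0) ≤ sg G w u p := by
    unfold sg
    refine Finset.single_le_sum (f := fun v => if side G w u v then p v else 0) (fun x _ => ?_)
      (Finset.mem_univ v)
    show 0 ≤ if side G w u x then p x else 0
    split_ifs
    · exact real_nonneg hp x
    · exact le_rfl
  rw [if_pos hs] at h2
  linarith

private theorem sep_of_pos {w u : V} {p : V → ℝ} (h : 0 < sg G w u p) :
    ∃ v, side G w u v ∧ p v ≠ 0 := by
  classical
  by_contra hcon
  push Not at hcon
  have h0 : sg G w u p = 0 := by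
    unfold sg
    refine Finset.sum_eq_zero fun v _ => ?_
    split_ifs with hs
    · exact hcon v hs
    · rfl
  linarith

theorem dir_unique (hG : G.IsTree) {p : V → ℝ} (hp : p ∈ real G) {w u u' : V} (hu : G.Adj w u)
    (hu' : G.Adj w u') (h : 0 < sg G w u p) (h' : 0 < sg G w u' p) : u = u' := by
  obtain ⟨v, hv, hpv⟩ := sep_of_pos h
  obtain ⟨v', hv', hpv'⟩ := sep_of_pos h'
  rcases real_supp hp hpv hpv' with rfl | hadj
  · exact side_unique hG hu hu' hv hv'
  · have hvw : v ≠ w := by
      rintro rfl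
      exact side_left hG hu hv
    have hvw' : v' ≠ w := by
      rintro rfl
      exact side_left hG hu' hv'
    have hne : s(v, v') ≠ s(w, u) := by
      intro he
      rcases Sym2.eq_iff.1 he with ⟨h1, _⟩ | ⟨_, h1⟩
      · exact hvw h1
      · exact hvw' h1
    exact side_unique hG hu hu' ((side_adj hadj hne).1 hv) hv'

/-- (T3) a connected set which does not contain the vertex `w` lies in one direction of `w` -/
theorem sg_clopen (hG : G.IsTree) {w u : V} (h : G.Adj w u) {C : Set (V → ℝ)} (hC : C ⊆ real G)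
    (hc : IsPreconnected C) (hw : ev w ∉ C) {p q : V → ℝ} (hp : p ∈ C) (hq : q ∈ C)
    (h0 : 0 < sg G w u p) : 0 < sg G w u q := by
  have hU : IsOpen {x : V → ℝ | 0 < sg G w u x} :=
    isOpen_lt continuous_const (sg_continuous G w u)
  have hU' : IsOpen (⋃ u' ∈ {u' : V | u' ≠ u ∧ G.Adj w u'}, {x : V → ℝ | 0 < sg G w u' x}) :=
    isOpen_biUnion fun u' _ => isOpen_lt continuous_const (sg_continuous G w u')
  have hcov : C ⊆ {x : V → ℝ | 0 < sg G w u x} ∪
      (⋃ u' ∈ {u' : V | u' ≠ u ∧ G.Adj w u'}, {x : V → ℝ | 0 < sg G w u' x}) := by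
    intro x hx
    have hxw : x ≠ ev w := by
      rintro rfl
      exact hw hx
    obtain ⟨u', hu', hpos⟩ := exists_dir hG (hC hx) hxw
    by_cases he : u' = u
    · left
      rw [he] at hpos
      exact hpos
    · right
      exact mem_biUnion (show u' ∈ {u' : V | u' ≠ u ∧ G.Adj w u'} from ⟨he, hu'⟩) hpos
  have hdis : C ∩ ({x : V → ℝ | 0 < sg G w u x} ∩
      (⋃ u' ∈ {u' : V | u' ≠ u ∧ G.Adj w u'}, {x : V → ℝ | 0 < sg G w u' x})) = ∅ := by
    rw [eq_empty_iff_forall_notMem]
    rintro x ⟨hx, h1, h2⟩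
    obtain ⟨u', hu', h3⟩ := mem_iUnion₂.1 h2
    exact hu'.1 (dir_unique hG (hC hx) h hu'.2 h1 h3).symm
  rcases isPreconnected_iff_subset_of_disjoint.1 hc _ _ hU hU' hcov hdis with h1 | h1
  · exact h1 hq
  · exfalso
    have : p ∈ C ∩ ({x : V → ℝ | 0 < sg G w u x} ∩
      (⋃ u' ∈ {u' : V | u' ≠ u ∧ G.Adj w u'}, {x : V → ℝ | 0 < sg G w u' x})) :=
      ⟨hp, h0, h1 hp⟩
    rw [hdis] at this
    exact this

end Pool.Agent.DB
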