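import Pool.Agent.DB.Top.SubA
import Pool.Agent.DB.Top.Cpt

/-!
# DB-T-SubH: the realisation of the subdivision

`smap p v = ∑ c, p c * (c.1 v / n)` maps the realisation of the `n`-fold subdivision of `G`
homeomorphically onto the realisation of `G`.
-/

namespace Pool.Agent.DB

open Set

variable {V : Type} [Fintype V] [DecidableEq V] {G : SimpleGraph V} {n : ℕ}

/-- the linear map `ev c ↦ c / n` -/
noncomputable def smap (G : SimpleGraph V) (n : ℕ) (p : SubV G n → ℝ) : V → ℝ :=
  fun v => ∑ c : SubV G n, p c * ((c.1 v : ℝ) / n)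

theorem smap_ev (c : SubV G n) : smap G n (ev c) = fun v => (c.1 v : ℝ) / n := by
  funext v
  unfold smap
  rw [Finset.sum_eq_single c]
  · rw [ev_apply, if_pos rfl, one_mul]
  · intro c' _ hc'
    rw [ev_apply, if_neg hc', zero_mul]
  · intro h
    exact absurd (Finset.mem_univ c) h

private theorem smap_comb (s r : ℝ) (p q : SubV G n → ℝ) :
    smap G n (s • p + r • q) = s • smap G n p + r • smap G n q := by
  funext v
  simp only [smap, Pi.add_apply, Pi.smul_apply, smul_eq_mul, Finset.mul_sum]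
  rw [← Finset.sum_add_distrib]
  refine Finset.sum_congr rfl fun c _ => ?_
  ring

private theorem smap_cont (G : SimpleGraph V) (n : ℕ) : Continuous (smap G n) := by
  refine continuous_pi fun v => ?_
  refine continuous_finsetSum _ fun c _ => ?_
  exact (continuous_apply c).mul continuous_const

theorem smap_edge (hn : 0 < n) {a b : V} (h : G.Adj a b) {t : ℕ} (ht : t < n) (s : ℝ) :
    smap G n ((1 - s) • ev (spt G n a b t) + s • ev (spt G n a b (t + 1))) =
      (1 - ((t : ℝ) + s) / n) • ev a + (((t : ℝ) + s) / n) • ev b := by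
  have hn' : (n : ℝ) ≠ 0 := by exact_mod_cast hn.ne'
  have hab : a ≠ b := h.ne
  have hle : t + 1 ≤ n := ht
  rw [smap_comb, smap_ev, smap_ev, spt_val h ht.le, spt_val h hle]
  funext v
  simp only [Pi.add_apply, Pi.smul_apply, smul_eq_mul, ev_apply, sfun]
  by_cases h1 : v = a
  · have h2 : v ≠ b := fun h2 => hab (h1.symm.trans h2)
    simp only [h1, if_true, if_neg hab, add_zero]
    rw [Nat.cast_sub ht.le, Nat.cast_sub hle]
    push_cast
    field_simp
    ring
  · by_cases h2 : v = b
    · simp only [h2, if_true, if_neg hab.symm, zero_add]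
      push_cast
      field_simp
      ring
    · simp [h1, h2]

private theorem smap_sv (hn : 0 < n) (a : V) : smap G n (ev (sv G n a)) = ev a := by
  have hn' : (n : ℝ) ≠ 0 := by exact_mod_cast hn.ne'
  rw [smap_ev, sv_val]
  funext v
  rw [ev_apply]
  by_cases h : v = a
  · simp [h, hn']
  · simp [h]

private theorem sub_pt_cases (hn : 0 < n) {p : SubV G n → ℝ} (hp : p ∈ real (SubG G n)) :
    (∃ a, p = ev (sv G n a)) ∨ ∃ a b, G.Adj a b ∧ ∃ t : ℕ, t < n ∧ ∃ s : ℝ, 0 ≤ s ∧ s < 1 ∧
      0 < (t : ℝ) + s ∧ p = (1 - s) • ev (spt G n a b t) + s • ev (spt G n a b (t + 1)) := by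
  rcases real_cases hp with ⟨x, rfl⟩ | ⟨x, y, ⟨a, b, t, hab, ht, rfl, rfl⟩, s, h0, h1, rfl⟩
  · rcases sub_cases hn x with ⟨a, rfl⟩ | ⟨a, b, t, hab, h0, h1, rfl⟩
    · exact Or.inl ⟨a, rfl⟩
    · refine Or.inr ⟨a, b, hab, t, h1, 0, le_rfl, one_pos, ?_, ?_⟩
      · have : (0 : ℝ) < t := by exact_mod_cast h0
        linarith
      · rw [sub_zero, one_smul, zero_smul, add_zero]
  · refine Or.inr ⟨a, b, hab, t, ht, s, h0.le, h1, ?_, rfl⟩
    positivity

private theorem edge_val (a b v : V) (u : ℝ) : ((1 - u) • ev a + u • ev b : V → ℝ) v =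
    (1 - u) * (if v = a then 1 else 0) + u * (if v = b then 1 else 0) := by
  rw [Pi.add_apply, Pi.smul_apply, Pi.smul_apply, ev_apply, ev_apply, smul_eq_mul, smul_eq_mul]

private theorem ev_ne_edge {c a b : V} (hab : a ≠ b) {u : ℝ} (h0 : 0 < u) (h1 : u < 1)
    (h : (ev c : V → ℝ) = (1 - u) • ev a + u • ev b) : False := by
  have h2 := congrFun h a
  rw [edge_val, ev_apply, if_pos rfl, if_neg hab] at h2
  split_ifs at h2 <;> linarith

private theorem edge_eq {a b a' b' : V} (hab : a ≠ b) (hab' : a' ≠ b') {u u' : ℝ} (h0 : 0 < u)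
    (h1 : u < 1) (h0' : 0 < u') (h1' : u' < 1)
    (h : ((1 - u) • ev a + u • ev b : V → ℝ) = (1 - u') • ev a' + u' • ev b') :
    (a' = a ∧ b' = b ∧ u' = u) ∨ (a' = b ∧ b' = a ∧ u' = 1 - u) := by
  have ha := congrFun h a
  have hb := congrFun h b
  rw [edge_val, edge_val, if_pos rfl, if_neg hab] at ha
  rw [edge_val, edge_val, if_neg hab.symm, if_pos rfl] at hb
  by_cases e1 : a = a'
  · have e2 : a ≠ b' := fun e => hab' (e1.symm.trans e)
    rw [if_pos e1, if_neg e2] at ha
    have e3 : b ≠ a' := fun e => hab (e1.trans e.symm)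
    rw [if_neg e3] at hb
    by_cases e4 : b = b'
    · exact Or.inl ⟨e1.symm, e4.symm, by linarith⟩
    · rw [if_neg e4] at hb
      exfalso
      linarith
  · rw [if_neg e1] at ha
    by_cases e2 : a = b'
    · rw [if_pos e2] at ha
      have e3 : b ≠ b' := fun e => hab (e2.trans e.symm)
      rw [if_neg e3] at hb
      by_cases e4 : b = a'
      · exact Or.inr ⟨e4.symm, e2.symm, by linarith⟩
      · rw [if_neg e4] at hb
        exfalso
        linarith
    · rw [if_neg e2] at ha
      exfalso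
      linarith

private theorem u_bounds (hn : 0 < n) {t : ℕ} (ht : t < n) {s : ℝ} (h1 : s < 1)
    (h2 : 0 < (t : ℝ) + s) : 0 < ((t : ℝ) + s) / n ∧ ((t : ℝ) + s) / n < 1 := by
  have hn' : (0 : ℝ) < n := by exact_mod_cast hn
  have h3 : (t : ℝ) + 1 ≤ n := by exact_mod_cast ht
  refine ⟨by positivity, ?_⟩
  rw [div_lt_one hn']
  linarith

private theorem nat_of_real {t t' : ℕ} {s s' : ℝ} (h0 : 0 ≤ s) (h1 : s < 1) (h0' : 0 ≤ s')
    (h1' : s' < 1) (h : (t : ℝ) + s = t' + s') : t = t' ∧ s = s' := by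
  have e1 : (t : ℝ) < t' + 1 := by linarith
  have e2 : (t' : ℝ) < t + 1 := by linarith
  have e1' : t < t' + 1 := by exact_mod_cast e1
  have e2' : t' < t + 1 := by exact_mod_cast e2
  have e3 : t = t' := by omega
  refine ⟨e3, ?_⟩
  rw [e3] at h
  linarith

theorem sub_homeo (G : SimpleGraph V) (hn : 0 < n) :
    ∃ Φ : real (SubG G n) ≃ₜ real G, ∀ p, (Φ p).1 = smap G n p.1 := by
  have hn' : (0 : ℝ) < n := by exact_mod_cast hn
  refine real_homeo (smap G n) (smap_cont G n) ?_ ?_ ?_
  · intro p hp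
    rcases sub_pt_cases hn hp with ⟨a, rfl⟩ | ⟨a, b, hab, t, ht, s, h0, h1, h2, rfl⟩
    · rw [smap_sv hn]
      exact ev_mem a
    · rw [smap_edge hn hab ht]
      have h3 := u_bounds hn ht h1 h2
      exact edge_mem hab h3.1.le h3.2.le
  · intro p hp p' hp' he
    rcases sub_pt_cases hn hp with ⟨a, rfl⟩ | ⟨a, b, hab, t, ht, s, h0, h1, h2, rfl⟩
    · rcases sub_pt_cases hn hp' with ⟨a', rfl⟩ | ⟨a', b', hab', t', ht', s', h0', h1', h2', rfl⟩
      · rw [smap_sv hn, smap_sv hn] at he
        rw [ev_inj he]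
      · rw [smap_sv hn, smap_edge hn hab' ht'] at he
        have h3 := u_bounds hn ht' h1' h2'
        exact (ev_ne_edge hab'.ne h3.1 h3.2 he).elim
    · rcases sub_pt_cases hn hp' with ⟨a', rfl⟩ | ⟨a', b', hab', t', ht', s', h0', h1', h2', rfl⟩
      · rw [smap_sv hn, smap_edge hn hab ht] at he
        have h3 := u_bounds hn ht h1 h2
        exact (ev_ne_edge hab.ne h3.1 h3.2 he.symm).elim
      · rw [smap_edge hn hab ht, smap_edge hn hab' ht'] at he
        have h3 := u_bounds hn ht h1 h2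
        have h3' := u_bounds hn ht' h1' h2'
        rcases edge_eq hab.ne hab'.ne h3.1 h3.2 h3'.1 h3'.2 he with ⟨rfl, rfl, hu⟩ | ⟨rfl, rfl, hu⟩
        · have h4 : (t : ℝ) + s = t' + s' := by
            field_simp at hu
            linarith
          obtain ⟨rfl, rfl⟩ := nat_of_real h0 h1 h0' h1' h4
          rfl
        · have h4 : (t' : ℝ) + s' = n - (t + s) := by
            field_simp at hu
            linarith
          rcases h0.eq_or_lt with hs | hs
          · subst hs
            have h5 : (t' : ℝ) + s' = ((n - t : ℕ) : ℝ) + 0 := by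
              rw [h4, Nat.cast_sub ht.le]
              ring
            obtain ⟨h6, h7⟩ := nat_of_real h0' h1' le_rfl one_pos h5
            subst h7
            simp only [sub_zero, one_smul, zero_smul, add_zero]
            rw [h6, ← spt_swap hab ht.le]
          · have h5 : (t' : ℝ) + s' = ((n - (t + 1) : ℕ) : ℝ) + (1 - s) := by
              rw [h4, Nat.cast_sub (show t + 1 ≤ n from ht)]
              push_cast
              ring
            obtain ⟨h6, h7⟩ := nat_of_real h0' h1' (by linarith) (by linarith) h5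
            subst h7
            rw [h6, show n - (t + 1) + 1 = n - t by omega, ← spt_swap hab ht.le,
              ← spt_swap hab (show t + 1 ≤ n from ht), sub_sub_cancel, add_comm]
  · intro q hq
    rcases real_cases hq with ⟨a, rfl⟩ | ⟨a, b, hab, u, h0, h1, rfl⟩
    · exact ⟨ev (sv G n a), ev_mem _, smap_sv hn a⟩
    · have hun : 0 ≤ u * n := by positivity
      have h2 : (⌊u * n⌋₊ : ℝ) ≤ u * n := Nat.floor_le hun
      have h3 : u * n < ⌊u * n⌋₊ + 1 := Nat.lt_floor_add_one _
      have h4 : ⌊u * n⌋₊ < n := by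
        have h5 : (⌊u * n⌋₊ : ℝ) < n := by nlinarith
        exact_mod_cast h5
      refine ⟨(1 - (u * n - ⌊u * n⌋₊)) • ev (spt G n a b ⌊u * n⌋₊) +
        (u * n - ⌊u * n⌋₊) • ev (spt G n a b (⌊u * n⌋₊ + 1)), ?_, ?_⟩
      · exact edge_mem (G := SubG G n) ⟨a, b, _, hab, h4, rfl, rfl⟩ (by linarith) (by linarith)
      · rw [smap_edge hn hab h4, add_sub_cancel, mul_div_assoc, div_self hn'.ne', mul_one]

end Pool.Agent.DB
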