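import Pool.Agent.DB.Defs

/-!
# DB-T-Basic: coordinates of the points of `real G`

PLAN.  `ev a v = if v = a then 1 else 0`.  For `p = (1 - t) • ev a + t • ev b` all coordinates
are explicit (`Pi.single_apply`); `real_iff`: backwards, `p` is supported on `{a, b}`; if `a = b`
then `p = ev a`, otherwise `p a + p b = 1` (`Finset.sum_eq_...`, e.g. compare with
`∑ v, p v = p a + p b` by `Finset.sum_subset` / `Fintype.sum_eq_add`), `t = p b`.
-/

namespace Pool.Agent.DB

open Set

variable {V : Type} [Fintype V] [DecidableEq V] {G : SimpleGraph V}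

omit [Fintype V] in
theorem ev_apply (a v : V) : ev a v = if v = a then 1 else 0 := by
  simp [ev, Pi.single_apply]

omit [Fintype V] in
private theorem edge_apply (a b v : V) (t : ℝ) : ((1 - t) • ev a + t • ev b : V → ℝ) v =
    (1 - t) * (if v = a then 1 else 0) + t * (if v = b then 1 else 0) := by
  rw [Pi.add_apply, Pi.smul_apply, Pi.smul_apply, ev_apply, ev_apply, smul_eq_mul, smul_eq_mul]

omit [Fintype V] in
theorem ev_inj {a b : V} (h : (ev a : V → ℝ) = ev b) : a = b := by
  have h1 := congrFun h a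
  rw [ev_apply, ev_apply, if_pos rfl] at h1
  by_contra hab
  rw [if_neg hab] at h1
  exact one_ne_zero h1

omit [Fintype V] in
theorem ev_mem (a : V) : ev a ∈ real G := by
  refine ⟨a, a, Or.inl rfl, 0, le_rfl, zero_le_one, ?_⟩
  rw [sub_zero, one_smul, zero_smul, add_zero]

omit [Fintype V] in
theorem edge_mem {a b : V} (h : G.Adj a b) {t : ℝ} (h0 : 0 ≤ t) (h1 : t ≤ 1) :
    (1 - t) • ev a + t • ev b ∈ real G :=
  ⟨a, b, Or.inr h, t, h0, h1, rfl⟩

omit [Fintype V] in
theorem real_nonneg {p : V → ℝ} (hp : p ∈ real G) (v : V) : 0 ≤ p v := by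
  obtain ⟨a, b, _, t, h0, h1, rfl⟩ := hp
  rw [edge_apply]
  have h2 : 0 ≤ 1 - t := by linarith
  split_ifs <;> simp <;> linarith

theorem real_sum {p : V → ℝ} (hp : p ∈ real G) : ∑ v, p v = 1 := by
  obtain ⟨a, b, _, t, h0, h1, rfl⟩ := hp
  simp only [edge_apply]
  rw [Finset.sum_add_distrib, ← Finset.mul_sum, ← Finset.mul_sum]
  simp

omit [Fintype V] in
theorem real_le_one {p : V → ℝ} (hp : p ∈ real G) (v : V) : p v ≤ 1 := by
  obtain ⟨a, b, _, t, h0, h1, rfl⟩ := hp
  rw [edge_apply]
  split_ifs <;> simp <;> linarith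

private theorem sum_pair {p : V → ℝ} {a b : V} (hab : a ≠ b)
    (h : ∀ v, v ≠ a → v ≠ b → p v = 0) : ∑ v, p v = p a + p b := by
  rw [← Finset.sum_subset (Finset.subset_univ {a, b})]
  · exact Finset.sum_pair hab
  · intro v _ hv
    rw [Finset.mem_insert, Finset.mem_singleton, not_or] at hv
    exact h v hv.1 hv.2

private theorem eq_edge_of {p : V → ℝ} (hs : ∑ v, p v = 1) {a b : V} (hab : a ≠ b)
    (h : ∀ v, v ≠ a → v ≠ b → p v = 0) : p = (1 - p b) • ev a + p b • ev b := by
  rw [sum_pair hab h] at hs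
  funext v
  rw [edge_apply]
  by_cases h1 : v = a
  · subst h1
    rw [if_pos rfl, if_neg hab]
    linarith
  · by_cases h2 : v = b
    · subst h2
      rw [if_pos rfl, if_neg h1]
      ring
    · rw [if_neg h1, if_neg h2, h v h1 h2]
      ring

theorem real_iff {p : V → ℝ} : p ∈ real G ↔ (∀ v, 0 ≤ p v) ∧ ∑ v, p v = 1 ∧
    ∃ a b, (a = b ∨ G.Adj a b) ∧ ∀ v, p v ≠ 0 → v = a ∨ v = b := by
  constructor
  · intro hp
    refine ⟨real_nonneg hp, real_sum hp, ?_⟩
    obtain ⟨a, b, hab, t, h0, h1, rfl⟩ := hp
    refine ⟨a, b, hab, fun v hv => ?_⟩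
    by_contra hcon
    rw [not_or] at hcon
    apply hv
    rw [edge_apply, if_neg hcon.1, if_neg hcon.2]
    ring
  · rintro ⟨h0, hs, a, b, hab, hsup⟩
    by_cases hne : a = b
    · subst hne
      have h1 : ∀ v, v ≠ a → p v = 0 := by
        intro v hv
        by_contra h2
        rcases hsup v h2 with h3 | h3
        · exact hv h3
        · exact hv h3
      have h2 : p a = 1 := by
        rw [← hs]
        exact (Finset.sum_eq_single a (fun v _ hv => h1 v hv)
          (fun h => absurd (Finset.mem_univ a) h)).symm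
      have h3 : p = ev a := by
        funext v
        rw [ev_apply]
        by_cases hv : v = a
        · rw [if_pos hv, hv, h2]
        · rw [if_neg hv, h1 v hv]
      rw [h3]
      exact ev_mem a
    · have hadj : G.Adj a b := by
        rcases hab with h | h
        · exact absurd h hne
        · exact h
      have hz : ∀ v, v ≠ a → v ≠ b → p v = 0 := by
        intro v hva hvb
        by_contra h2
        rcases hsup v h2 with h3 | h3
        · exact hva h3
        · exact hvb h3
      have hsum := sum_pair hne hz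
      rw [hs] at hsum
      rw [eq_edge_of hs hne hz]
      exact edge_mem hadj (h0 b) (by linarith [h0 a])

omit [Fintype V] in
/-- a point of `real G` is a vertex or an interior point of an edge -/
theorem real_cases {p : V → ℝ} (hp : p ∈ real G) : (∃ v, p = ev v) ∨
    ∃ a b, G.Adj a b ∧ ∃ t : ℝ, 0 < t ∧ t < 1 ∧ p = (1 - t) • ev a + t • ev b := by
  obtain ⟨a, b, hab, t, h0, h1, rfl⟩ := hp
  rcases hab with hab | hab
  · left
    refine ⟨a, ?_⟩
    rw [← hab, ← add_smul]
    simp
  · rcases h0.eq_or_lt with h | h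
    · left
      refine ⟨a, ?_⟩
      rw [← h]
      simp
    · rcases h1.eq_or_lt with h' | h'
      · left
        refine ⟨b, ?_⟩
        rw [h']
        simp
      · right
        exact ⟨a, b, hab, t, h, h', rfl⟩

omit [Fintype V] in
/-- two vertices in the support are adjacent -/
theorem real_supp {p : V → ℝ} (hp : p ∈ real G) {u v : V} (hu : p u ≠ 0) (hv : p v ≠ 0) :
    u = v ∨ G.Adj u v := by
  obtain ⟨a, b, hab, t, h0, h1, rfl⟩ := hp
  have key : ∀ w, ((1 - t) • ev a + t • ev b : V → ℝ) w ≠ 0 → w = a ∨ w = b := by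
    intro w hw
    by_contra hcon
    rw [not_or] at hcon
    apply hw
    rw [edge_apply, if_neg hcon.1, if_neg hcon.2]
    ring
  rcases key u hu with h2 | h2 <;> rcases key v hv with h3 | h3
  · left; rw [h2, h3]
  · rw [h2, h3]; exact hab
  · rw [h2, h3]
    rcases hab with h | h
    · left; exact h.symm
    · right; exact h.symm
  · left; rw [h2, h3]

/-- a point of `real G` supported on `{a, b}` -/
theorem real_eq_edge {p : V → ℝ} (hp : p ∈ real G) {a b : V} (hab : a ≠ b)
    (h : ∀ v, v ≠ a → v ≠ b → p v = 0) : p = (1 - p b) • ev a + p b • ev b :=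
  eq_edge_of (real_sum hp) hab h

omit [Fintype V] in
theorem edge_symm (a b : V) (t : ℝ) :
    (1 - t) • ev a + t • ev b = (1 - (1 - t)) • ev b + (1 - t) • (ev a : V → ℝ) := by
  rw [sub_sub_cancel, add_comm]

omit [Fintype V] in
/-- the segment of an edge is connected -/
theorem edge_connected (a b : V) :
    IsConnected ((fun t : ℝ => (1 - t) • ev a + t • (ev b : V → ℝ)) '' Icc 0 1) := by
  refine (isConnected_Icc zero_le_one).image _ (Continuous.continuousOn ?_)
  exact ((continuous_const.sub continuous_id).smul continuous_const).add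
    (continuous_id.smul continuous_const)

end Pool.Agent.DB
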