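import Pool.Agent.DB.Defs

/-!
# DB-T-SideG: the two sides of an edge of a tree (graph level)

PLAN.  In a tree every edge is a bridge (`SimpleGraph.isAcyclic_iff_forall_adj_isBridge`,
`SimpleGraph.isBridge_iff` or `SimpleGraph.IsBridge` with `deleteEdges`/`\ fromEdgeSet`): `side_left`.
`side_total`: take a walk in `G` from `v` to `a` or `b` and induct: every `v` is reachable from `a` or
from `b` in `G - ab` (induction on `G.Connected` reachability: walk `b -> v`; a step along an edge
different from `ab` keeps the side, a step along `ab` changes between the sides of `a` and `b`,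
where `a` is reachable from `a` and `b` from `b`).  `side_symm`: `s(b, a) = s(a, b)`; both sides at
once would join `a` and `b` in `G - ab`.  `side_adj`: the edge `uv` is in `G - ab`.
`side_cross`: contrapositive of `side_adj`: then `s(u, v) = s(a, b)`, and `a` is not on the side.
-/

namespace Pool.Agent.DB

open Set

variable {V : Type} {G : SimpleGraph V}

/-- `v` is on the `b`-side of the edge `ab` -/
def side (G : SimpleGraph V) (a b v : V) : Prop := (G.deleteEdges {s(a, b)}).Reachable b v

theorem side_right (G : SimpleGraph V) (a b : V) : side G a b b := SimpleGraph.Reachable.refl _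

private theorem bridge (hG : G.IsTree) {a b : V} (h : G.Adj a b) :
    ¬ (G.deleteEdges {s(a, b)}).Reachable a b :=
  SimpleGraph.isBridge_iff.1 (SimpleGraph.isAcyclic_iff_forall_adj_isBridge.1 hG.isAcyclic h)

theorem side_left (hG : G.IsTree) {a b : V} (h : G.Adj a b) : ¬ side G a b a :=
  fun hr => bridge hG h hr.symm

private theorem del_adj {a b u v : V} (huv : G.Adj u v) (hne : s(u, v) ≠ s(a, b)) :
    (G.deleteEdges {s(a, b)}).Adj u v := by
  rw [SimpleGraph.deleteEdges_adj]
  exact ⟨huv, fun h => hne (Set.mem_singleton_iff.1 h)⟩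

private theorem total_aux {a b : V} {u v : V} (p : G.Walk u v) :
    ((G.deleteEdges {s(a, b)}).Reachable a u ∨ (G.deleteEdges {s(a, b)}).Reachable b u) →
    ((G.deleteEdges {s(a, b)}).Reachable a v ∨ (G.deleteEdges {s(a, b)}).Reachable b v) := by
  induction p with
  | nil => exact id
  | @cons u w v huw p ih =>
    intro h
    apply ih
    by_cases he : s(u, w) = s(a, b)
    · rw [Sym2.eq_iff] at he
      rcases he with ⟨-, rfl⟩ | ⟨-, rfl⟩
      · exact Or.inr (SimpleGraph.Reachable.refl _)
      · exact Or.inl (SimpleGraph.Reachable.refl _)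
    · have := (del_adj huw he).reachable
      exact h.imp (fun h => h.trans this) (fun h => h.trans this)

theorem side_symm (hG : G.IsTree) {a b : V} (h : G.Adj a b) (v : V) :
    side G b a v ↔ ¬ side G a b v := by
  unfold side
  rw [Sym2.eq_swap (a := b) (b := a)]
  constructor
  · intro h1 h2
    exact bridge hG h (h1.trans h2.symm)
  · intro h1
    obtain ⟨p⟩ := hG.connected.preconnected a v
    exact (total_aux (b := b) p (Or.inl (SimpleGraph.Reachable.refl _))).resolve_right h1

theorem side_adj {a b u v : V} (huv : G.Adj u v) (hne : s(u, v) ≠ s(a, b)) :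
    side G a b u ↔ side G a b v :=
  ⟨fun h => h.trans (del_adj huv hne).reachable, fun h => h.trans (del_adj huv hne).symm.reachable⟩

theorem side_cross (hG : G.IsTree) {a b u v : V} (h : G.Adj a b) (huv : G.Adj u v)
    (hu : ¬ side G a b u) (hv : side G a b v) : u = a ∧ v = b := by
  have he : s(u, v) = s(a, b) := by
    by_contra hne
    exact hu ((side_adj huv hne).2 hv)
  rw [Sym2.eq_iff] at he
  rcases he with he | ⟨h1, h2⟩
  · exact he
  · exact absurd (h1 ▸ side_right G a b) hu

/-- `v ≠ w` is on the side of exactly one neighbour of `w` -/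
theorem exists_side (hG : G.IsTree) {w v : V} (h : v ≠ w) : ∃ u, G.Adj w u ∧ side G w u v := by
  classical
  obtain ⟨p, hp⟩ := (hG.connected.preconnected w v).exists_isPath
  cases p with
  | nil => exact absurd rfl h
  | @cons _ u _ hwu q =>
    rw [SimpleGraph.Walk.cons_isPath_iff] at hp
    refine ⟨u, hwu, ⟨q.toDeleteEdges _ ?_⟩⟩
    intro e he hmem
    rw [Set.mem_singleton_iff] at hmem
    subst hmem
    exact hp.2 (SimpleGraph.Walk.fst_mem_support_of_mem_edges q he)

/-- the side of `b` is connected -/
theorem side_walk (hG : G.IsTree) {a b v : V} (h : G.Adj a b) (hv : side G a b v) :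
    Relation.ReflTransGen (fun x y => G.Adj x y ∧ side G a b x ∧ side G a b y) b v := by
  have key : ∀ x y : V, (p : (G.deleteEdges {s(a, b)}).Walk x y) → side G a b x →
      Relation.ReflTransGen (fun x y => G.Adj x y ∧ side G a b x ∧ side G a b y) x y := by
    intro x y p
    induction p with
    | nil => intro _; exact Relation.ReflTransGen.refl
    | @cons x z y hxz p ih =>
      intro hx
      have hz : side G a b z := hx.trans hxz.reachable
      exact Relation.ReflTransGen.head ⟨(SimpleGraph.deleteEdges_adj.1 hxz).1, hx, hz⟩ (ih hz)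
  obtain ⟨p⟩ := hv
  exact key b v p (side_right G a b)

theorem side_unique (hG : G.IsTree) {w u u' v : V} (hu : G.Adj w u) (hu' : G.Adj w u')
    (h : side G w u v) (h' : side G w u' v) : u = u' := by
  by_contra hne
  have hwu := side_left hG hu
  have hwu' := side_left hG hu'
  have h1 : side G w u' u ↔ side G w u' v := by
    have := side_walk hG hu h
    induction this with
    | refl => exact Iff.rfl
    | @tail x y hx hxy ih =>
      have hxw : x ≠ w := fun he => hwu (he ▸ hxy.2.1)
      have hyw : y ≠ w := fun he => hwu (he ▸ hxy.2.2)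
      have hs : side G w u' x ↔ side G w u' y := by
        apply side_adj hxy.1
        intro he
        rw [Sym2.eq_iff] at he
        rcases he with ⟨h1, -⟩ | ⟨-, h1⟩
        · exact hxw h1
        · exact hyw h1
      exact (ih hxy.2.1 (hs.2 h')).trans hs
  have h2 : side G w u' u := h1.2 h'
  have h3 : side G w u' w := by
    refine (side_adj hu ?_).2 h2
    intro he
    rw [Sym2.eq_iff] at he
    rcases he with ⟨-, h1⟩ | ⟨h1, h2⟩
    · exact hne h1
    · exact hu'.ne h1
  exact hwu' h3

end Pool.Agent.DB
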