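import Pool.Agent.DB.Top.Basic
import Pool.Agent.DB.Top.SideG

/-!
# DB-T-Side: the functional of an edge of a tree (T1)

`sg G a b p` is the sum of the coordinates of `p` on the `b`-side of the edge `ab`.

PLAN.  `sg_ev` by `ev_apply`.  `sg` is linear in `p`: `sg_comb`.  `sg_edge`, `sg_other` from
`side_left`, `side_right`, `side_adj`.  `sg_mid`: `real_cases`/definition of `real`: if `p` is on an
edge `uv` (or a vertex) with `s(u,v) ≠ s(a,b)` then `sg p` is `0` or `1`; otherwise `p` is on the edge
`ab` and `sg p = t`.  `sg_swap`: `side_symm` and `real_sum`.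
`sg_ivt`: the image of the preconnected set under the continuous map `sg` is an interval
(`IsPreconnected.image`, `.ordConnected` / `IsPreconnected.intermediate_value`), so it contains `θ`;
the point with `sg = θ` is unique by `sg_mid`.
-/

namespace Pool.Agent.DB

open Set

variable {V : Type} [Fintype V] [DecidableEq V] {G : SimpleGraph V}

open Classical in
/-- the functional of the edge `ab` -/
noncomputable def sg (G : SimpleGraph V) (a b : V) (p : V → ℝ) : ℝ :=
  ∑ v, if side G a b v then p v else 0

omit [DecidableEq V] in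
theorem sg_continuous (G : SimpleGraph V) (a b : V) : Continuous (sg G a b) := by
  unfold sg
  refine continuous_finsetSum _ fun v _ => ?_
  split_ifs
  · exact continuous_apply v
  · exact continuous_const

omit [DecidableEq V] in
theorem sg_comb (G : SimpleGraph V) (a b : V) (c d : ℝ) (p q : V → ℝ) :
    sg G a b (c • p + d • q) = c * sg G a b p + d * sg G a b q := by
  unfold sg
  rw [Finset.mul_sum, Finset.mul_sum, ← Finset.sum_add_distrib]
  refine Finset.sum_congr rfl fun v _ => ?_
  split_ifs
  · simp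
  · simp

theorem sg_ev_side {a b v : V} (h : side G a b v) : sg G a b (ev v) = 1 := by
  unfold sg
  rw [Finset.sum_eq_single v]
  · rw [if_pos h, ev_apply, if_pos rfl]
  · intro w _ hw
    rw [ev_apply, if_neg hw, ite_self]
  · intro h'
    exact absurd (Finset.mem_univ v) h'

theorem sg_ev_not {a b v : V} (h : ¬ side G a b v) : sg G a b (ev v) = 0 := by
  unfold sg
  refine Finset.sum_eq_zero fun w _ => ?_
  by_cases hw : w = v
  · rw [hw, if_neg h]
  · rw [ev_apply, if_neg hw, ite_self]

theorem sg_nonneg (a b : V) {p : V → ℝ} (hp : p ∈ real G) : 0 ≤ sg G a b p := by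
  unfold sg
  refine Finset.sum_nonneg fun v _ => ?_
  split_ifs
  · exact real_nonneg hp v
  · exact le_rfl

theorem sg_le_one (a b : V) {p : V → ℝ} (hp : p ∈ real G) : sg G a b p ≤ 1 := by
  unfold sg
  rw [← real_sum hp]
  refine Finset.sum_le_sum fun v _ => ?_
  split_ifs
  · exact le_rfl
  · exact real_nonneg hp v

/-- on the edge `ab` -/
theorem sg_edge (hG : G.IsTree) {a b : V} (h : G.Adj a b) (t : ℝ) :
    sg G a b ((1 - t) • ev a + t • ev b) = t := by
  rw [sg_comb, sg_ev_not (side_left hG h), sg_ev_side (side_right G a b)]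
  ring

/-- constant on all other edges -/
theorem sg_other {a b u v : V} (huv : G.Adj u v) (hne : s(u, v) ≠ s(a, b)) (t : ℝ) :
    sg G a b ((1 - t) • ev u + t • ev v) = sg G a b (ev u) := by
  rw [sg_comb]
  by_cases hu : side G a b u
  · rw [sg_ev_side hu, sg_ev_side ((side_adj huv hne).1 hu)]
    ring
  · rw [sg_ev_not hu, sg_ev_not (fun hv => hu ((side_adj huv hne).2 hv))]
    ring

/-- the points with `0 < sg < 1` are the interior points of the edge -/
theorem sg_mid (hG : G.IsTree) {a b : V} (h : G.Adj a b) {p : V → ℝ} (hp : p ∈ real G)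
    (h0 : 0 < sg G a b p) (h1 : sg G a b p < 1) :
    p = (1 - sg G a b p) • ev a + sg G a b p • ev b := by
  have hv : ∀ v, sg G a b (ev v) = 0 ∨ sg G a b (ev v) = 1 := by
    intro v
    by_cases hs : side G a b v
    · exact Or.inr (sg_ev_side hs)
    · exact Or.inl (sg_ev_not hs)
  rcases real_cases hp with ⟨v, rfl⟩ | ⟨u, v, huv, t, ht0, ht1, rfl⟩
  · rcases hv v with h2 | h2
    · rw [h2] at h0
      exact absurd h0 (lt_irrefl _)
    · rw [h2] at h1
      exact absurd h1 (lt_irrefl _)
  · by_cases hne : s(u, v) = s(a, b)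
    · rcases Sym2.eq_iff.1 hne with ⟨rfl, rfl⟩ | ⟨rfl, rfl⟩
      · rw [sg_edge hG h]
      · rw [edge_symm, sg_edge hG h]
    · rw [sg_other huv hne] at h0 h1
      rcases hv u with h2 | h2
      · rw [h2] at h0
        exact absurd h0 (lt_irrefl _)
      · rw [h2] at h1
        exact absurd h1 (lt_irrefl _)

theorem sg_swap (hG : G.IsTree) {a b : V} (h : G.Adj a b) {p : V → ℝ} (hp : p ∈ real G) :
    sg G b a p = 1 - sg G a b p := by
  rw [eq_sub_iff_add_eq, ← real_sum hp]
  unfold sg
  rw [← Finset.sum_add_distrib]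
  refine Finset.sum_congr rfl fun v _ => ?_
  by_cases hs : side G a b v
  · rw [if_pos hs, if_neg (fun h' => (side_symm hG h v).1 h' hs), zero_add]
  · rw [if_neg hs, if_pos ((side_symm hG h v).2 hs), add_zero]

/-- a connected set which meets both sides contains the interior points in between -/
theorem sg_ivt (hG : G.IsTree) {a b : V} (h : G.Adj a b) {C : Set (V → ℝ)} (hC : C ⊆ real G)
    (hc : IsPreconnected C) {p q : V → ℝ} (hp : p ∈ C) (hq : q ∈ C) {θ : ℝ} (h0 : 0 < θ)
    (h1 : θ < 1) (hpθ : sg G a b p ≤ θ) (hqθ : θ ≤ sg G a b q) :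
    (1 - θ) • ev a + θ • ev b ∈ C := by
  obtain ⟨x, hx, hx2⟩ := hc.intermediate_value hp hq (sg_continuous G a b).continuousOn
    ⟨hpθ, hqθ⟩
  have h2 := sg_mid hG h (hC hx) (by rw [hx2]; exact h0) (by rw [hx2]; exact h1)
  rw [hx2] at h2
  rw [← h2]
  exact hx

end Pool.Agent.DB
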