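import Pool.Agent.DB.Top.SubDef

/-!
# DB-T-SubA: the vertices of the subdivision

PLAN.  `sub_cases`: `c = (c.1, sum, a, b, support)`: if `a = b` then `c = sv a` (`c.1 a = n` by the sum,
`Finset.sum_eq_single`); otherwise `c.1 a + c.1 b = n` and `c = spt a b (c.1 b)`; if `c.1 b = 0` it is
`sv a`, if `c.1 b = n` it is `sv b`.  The other statements: compare the functions `sfun` at
`a, b, a', b'` (`spt_val`, `sv_val`).
-/

namespace Pool.Agent.DB

open Set

variable {V : Type} [Fintype V] [DecidableEq V] {G : SimpleGraph V} {n : ℕ}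

theorem sub_cases (hn : 0 < n) (x : SubV G n) : (∃ a, x = sv G n a) ∨
    ∃ a b t, G.Adj a b ∧ 0 < t ∧ t < n ∧ x = spt G n a b t := by
  obtain ⟨c, hsum, a, b, hab, hsupp⟩ := x
  rcases hab with rfl | hab
  · left
    refine ⟨a, Subtype.ext ?_⟩
    rw [sv_val]
    have h1 : ∑ v, c v = c a := by
      apply Finset.sum_eq_single a
      · intro v _ hv
        by_contra h
        rcases hsupp v h with h2 | h2 <;> exact hv h2
      · intro h
        exact absurd (Finset.mem_univ a) h
    funext v
    by_cases hv : v = a
    · subst hv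
      simp only [if_true]
      rw [← h1, hsum]
    · rw [if_neg hv]
      by_contra h
      rcases hsupp v h with h2 | h2 <;> exact hv h2
  · have hne : a ≠ b := hab.ne
    have h1 : c a + c b = n := by
      rw [← Finset.sum_pair (f := c) hne, ← hsum]
      apply Finset.sum_subset (Finset.subset_univ _)
      intro v _ hv
      by_contra h
      rcases hsupp v h with h2 | h2 <;> simp [h2] at hv
    have key : ∀ v, c v = sfun n a b (c b) v := by
      intro v
      simp only [sfun]
      by_cases hva : v = a
      · subst hva
        rw [if_pos rfl, if_neg hne]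
        omega
      · by_cases hvb : v = b
        · subst hvb
          rw [if_neg hva, if_pos rfl]
          omega
        · rw [if_neg hva, if_neg hvb]
          by_contra h
          rcases hsupp v (by simpa using h) with h2 | h2
          · exact hva h2
          · exact hvb h2
    have hx : (⟨c, hsum, a, b, Or.inr hab, hsupp⟩ : SubV G n) = spt G n a b (c b) := by
      apply Subtype.ext
      rw [spt_val hab (by omega)]
      funext v
      exact key v
    rw [hx]
    by_cases h0 : c b = 0
    · left
      exact ⟨a, by rw [h0, spt_zero hab]⟩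
    · by_cases hn' : c b = n
      · left
        exact ⟨b, by rw [hn', spt_top hab]⟩
      · right
        exact ⟨a, b, c b, hab, Nat.pos_of_ne_zero h0, by omega, rfl⟩

theorem sv_inj (hn : 0 < n) {a b : V} (h : sv G n a = sv G n b) : a = b := by
  have h1 := congrArg (fun c : SubV G n => c.1 a) h
  simp only [sv_val, if_true] at h1
  by_contra hab
  rw [if_neg hab] at h1
  omega

theorem spt_ne_sv {a b c : V} (h : G.Adj a b) {t : ℕ} (h0 : 0 < t) (h1 : t < n) :
    spt G n a b t ≠ sv G n c := by
  intro he
  have hne : a ≠ b := h.ne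
  have ha := congrArg (fun c : SubV G n => c.1 a) he
  have hb := congrArg (fun c : SubV G n => c.1 b) he
  simp only [sv_val, spt_val h h1.le, sfun, if_true, if_neg hne, if_neg hne.symm] at ha hb
  split_ifs at ha hb with h2 h3 <;> first | omega | exact hne (h2.trans h3.symm)

theorem spt_eq {a b a' b' : V} (h : G.Adj a b) (h' : G.Adj a' b') {t t' : ℕ} (h0 : 0 < t)
    (h1 : t < n) (h1' : t' ≤ n) (he : spt G n a b t = spt G n a' b' t') :
    (a' = a ∧ b' = b ∧ t' = t) ∨ (a' = b ∧ b' = a ∧ t' = n - t) := by
  have hne : a ≠ b := h.ne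
  have hne' : a' ≠ b' := h'.ne
  have ha := congrArg (fun c : SubV G n => c.1 a) he
  have hb := congrArg (fun c : SubV G n => c.1 b) he
  simp only [spt_val h h1.le, spt_val h' h1', sfun, if_true, if_neg hne, if_neg hne.symm] at ha hb
  by_cases h2 : a = a'
  · subst h2
    left
    rw [if_pos rfl, if_neg hne'] at ha
    rw [if_neg hne.symm] at hb
    by_cases h3 : b = b'
    · subst h3
      rw [if_pos rfl] at hb
      exact ⟨rfl, rfl, by omega⟩
    · rw [if_neg h3] at hb
      omega
  · rw [if_neg h2] at ha
    by_cases h3 : a = b'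
    · subst h3
      right
      rw [if_pos rfl] at ha
      rw [if_neg hne.symm] at hb
      by_cases h4 : b = a'
      · subst h4
        rw [if_pos rfl] at hb
        exact ⟨rfl, rfl, by omega⟩
      · rw [if_neg h4] at hb
        omega
    · rw [if_neg h3] at ha
      omega

theorem spt_ray (hn : 0 < n) {a b b' : V} (h : G.Adj a b) (h' : G.Adj a b') {t t' : ℕ}
    (h1 : t ≤ n) (h1' : t' ≤ n) (he : spt G n a b t = spt G n a b' t') :
    t = t' ∧ (t = 0 ∨ b = b') := by
  have hne : a ≠ b := h.ne
  have hne' : a ≠ b' := h'.ne
  have ha := congrArg (fun c : SubV G n => c.1 a) he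
  have hb := congrArg (fun c : SubV G n => c.1 b) he
  simp only [spt_val h h1, spt_val h' h1', sfun, if_true, if_neg hne, if_neg hne.symm,
    if_neg hne'] at ha hb
  refine ⟨by omega, ?_⟩
  by_cases h3 : b = b'
  · exact Or.inr h3
  · rw [if_neg h3] at hb
    left
    omega

end Pool.Agent.DB
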