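import Pool.Agent.DB.Top.SubA

/-!
# DB-T-SubB: adjacency, degrees, branch vertices of the subdivision

PLAN.  `sub_adj_succ` by definition.  `sub_adj_sv`: the definition with `sv a = spt a' b t`: by
`spt_ne_sv` `t = 0` (then `sv a = sv a'`, `a = a'`), and for the symmetric description (`x` is the upper
end: not needed, the relation `Adj x y` has `x = spt a b t`, `t < n`, so `x = sv a` forces `t = 0`).
`sub_adj_inner`: `spt_eq` for `x = spt a b t = spt a' b' t'`: two cases, `y = spt a b (t+1)` or
`y = spt b a (n - t + 1) = spt a b (t - 1)` (`spt_swap`).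
`sub_deg_sv`: the neighbour set is the image of `G.neighborSet a` under the injective map
`b ↦ spt a b 1` (`spt_ray`): `Set.ncard_image_of_injOn`.  `sub_deg_inner`: the neighbour set is
`{spt a b (t-1), spt a b (t+1)}`, two different points (`spt_ray`).
`sub_bnum`: `{x | 3 ≤ deg x}` is the image of `{v | 3 ≤ deg G v}` under the injective `sv`
(`sub_cases`, degree 2 in the interior).
-/

namespace Pool.Agent.DB

open Set

variable {V : Type} [Fintype V] [DecidableEq V] {G : SimpleGraph V} {n : ℕ}

theorem sub_adj_succ {a b : V} (h : G.Adj a b) {t : ℕ} (ht : t < n) :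
    (SubG G n).Adj (spt G n a b t) (spt G n a b (t + 1)) :=
  ⟨a, b, t, h, ht, rfl, rfl⟩

theorem sub_adj_sv (hn : 0 < n) (a : V) (y : SubV G n) :
    (SubG G n).Adj (sv G n a) y ↔ ∃ b, G.Adj a b ∧ y = spt G n a b 1 := by
  constructor
  · rintro ⟨a', b', t, h, ht, hx, hy⟩
    rcases Nat.eq_zero_or_pos t with h0 | h0
    · subst h0
      rw [spt_zero h] at hx
      have haa := sv_inj hn hx
      subst haa
      exact ⟨b', h, hy⟩
    · exact absurd hx.symm (spt_ne_sv h h0 ht)
  · rintro ⟨b, h, rfl⟩
    have h1 := sub_adj_succ (G := G) (n := n) h hn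
    rw [spt_zero h] at h1
    exact h1

theorem sub_adj_inner {a b : V} (h : G.Adj a b) {t : ℕ} (h0 : 0 < t) (h1 : t < n)
    (y : SubV G n) : (SubG G n).Adj (spt G n a b t) y ↔
      y = spt G n a b (t - 1) ∨ y = spt G n a b (t + 1) := by
  constructor
  · rintro ⟨a', b', t', h', ht', hx, hy⟩
    rcases spt_eq h h' h0 h1 ht'.le hx with ⟨ha, hb, htt⟩ | ⟨ha, hb, htt⟩
    · subst ha hb htt
      exact Or.inr hy
    · subst ha hb htt
      left
      rw [hy, spt_swap h.symm (show n - t + 1 ≤ n by omega)]
      congr 1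
      omega
  · rintro (rfl | rfl)
    · have h2 := sub_adj_succ (G := G) (n := n) h (show t - 1 < n by omega)
      rw [show t - 1 + 1 = t by omega] at h2
      exact h2.symm
    · exact sub_adj_succ h h1

theorem sub_deg_sv (hn : 0 < n) (a : V) : deg (SubG G n) (sv G n a) = deg G a := by
  unfold deg
  have h1 : (SubG G n).neighborSet (sv G n a) = (fun b => spt G n a b 1) '' G.neighborSet a := by
    ext y
    rw [SimpleGraph.mem_neighborSet, sub_adj_sv hn, Set.mem_image]
    constructor
    · rintro ⟨b, h, rfl⟩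
      exact ⟨b, h, rfl⟩
    · rintro ⟨b, h, rfl⟩
      exact ⟨b, h, rfl⟩
  rw [h1]
  apply Set.ncard_image_of_injOn
  intro b hb b' hb' he
  rcases (spt_ray hn hb hb' (show 1 ≤ n from hn) (show 1 ≤ n from hn) he).2 with h2 | h2
  · exact absurd h2 one_ne_zero
  · exact h2

theorem sub_deg_inner {a b : V} (h : G.Adj a b) {t : ℕ} (h0 : 0 < t) (h1 : t < n) :
    deg (SubG G n) (spt G n a b t) = 2 := by
  unfold deg
  have h2 : (SubG G n).neighborSet (spt G n a b t) =
      {spt G n a b (t - 1), spt G n a b (t + 1)} := by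
    ext y
    rw [SimpleGraph.mem_neighborSet, sub_adj_inner h h0 h1, Set.mem_insert_iff,
      Set.mem_singleton_iff]
  rw [h2]
  apply Set.ncard_pair
  intro he
  have h3 := (spt_ray (show 0 < n by omega) h h (show t - 1 ≤ n by omega)
    (show t + 1 ≤ n from h1) he).1
  omega

theorem sub_bnum (hn : 0 < n) : bnum (SubG G n) = bnum G := by
  unfold bnum
  have h1 : {x : SubV G n | 3 ≤ deg (SubG G n) x} = sv G n '' {v : V | 3 ≤ deg G v} := by
    ext x
    rw [Set.mem_image]
    constructor
    · intro hx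
      have hx' : 3 ≤ deg (SubG G n) x := hx
      rcases sub_cases hn x with ⟨a, rfl⟩ | ⟨a, b, t, h, h0, h1, rfl⟩
      · rw [sub_deg_sv hn] at hx'
        exact ⟨a, hx', rfl⟩
      · rw [sub_deg_inner h h0 h1] at hx'
        omega
    · rintro ⟨a, ha, rfl⟩
      have ha' : 3 ≤ deg G a := ha
      show 3 ≤ deg (SubG G n) (sv G n a)
      rw [sub_deg_sv hn]
      exact ha'
  rw [h1]
  exact Set.ncard_image_of_injective _ (fun a b h => sv_inj hn h)

end Pool.Agent.DB
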