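import Pool.Agent.DB.Top.SubB
import Pool.Agent.DB.Top.SideG

/-!
# DB-T-SubC: the subdivision of a tree is a tree

PLAN.  Connected: every vertex is joined to an old vertex (`sub_cases`, walk down `spt a b t`, ...,
`spt a b 0 = sv a`), and `sv a`, `sv b` are joined for adjacent `a, b` (walk up to `spt a b n = sv b`),
hence for all `a, b` (`hG.connected`).
Acyclic: `SimpleGraph.isAcyclic_iff_forall_adj_isBridge` (every edge is a bridge).  The edge
`x = spt a b t`, `y = spt a b (t+1)`: put `H c = ∑ v, if side G a b v then c.1 v else 0` and
`σ c := t + 1 ≤ H c`.  For `c = spt a b s` one has `H c = s` (`side_right`, `side_left`), and `H` is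
constant (`0` or `n`) along all other edges `uv` of `G` (`side_adj`).  So `σ` is false at `x`, true at
`y`, and takes the same value at the ends of every other edge of `SubG G n`: hence no walk from `x` to
`y` in `SubG G n` minus the edge (induction on the walk).
-/

namespace Pool.Agent.DB

open Set

variable {V : Type} [Fintype V] [DecidableEq V] {G : SimpleGraph V} {n : ℕ}

private theorem subc_reach {a b : V} (h : G.Adj a b) {t : ℕ} (ht : t ≤ n) :
    (SubG G n).Reachable (sv G n a) (spt G n a b t) := by
  induction t with
  | zero => rw [spt_zero h]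
  | succ t ih => exact (ih (by omega)).trans (sub_adj_succ h (by omega)).reachable

private theorem subc_reach_sv (hG : G.Connected) (a b : V) :
    (SubG G n).Reachable (sv G n a) (sv G n b) := by
  obtain ⟨p⟩ := hG.preconnected a b
  induction p with
  | nil => exact SimpleGraph.Reachable.refl _
  | cons h p ih =>
    have h1 := subc_reach (n := n) h le_rfl
    rw [spt_top h] at h1
    exact h1.trans ih

theorem sub_connected (hG : G.Connected) (hn : 0 < n) : (SubG G n).Connected := by
  obtain ⟨a0⟩ := hG.nonempty
  haveI : Nonempty (SubV G n) := ⟨sv G n a0⟩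
  have key : ∀ x : SubV G n, (SubG G n).Reachable (sv G n a0) x := by
    intro x
    rcases sub_cases hn x with ⟨a, rfl⟩ | ⟨a, b, t, h, h0, h1, rfl⟩
    · exact subc_reach_sv hG a0 a
    · exact (subc_reach_sv hG a0 a).trans (subc_reach h h1.le)
  exact ⟨fun x y => (key x).symm.trans (key y)⟩

open Classical in
private noncomputable def HH (G : SimpleGraph V) (n : ℕ) (a b : V) (c : SubV G n) : ℕ :=
  ∑ v, if side G a b v then c.1 v else 0

open Classical in
private theorem HH_spt {a b u v : V} (h : G.Adj u v) {s : ℕ} (hs : s ≤ n) :
    HH G n a b (spt G n u v s) =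
      (if side G a b u then n - s else 0) + (if side G a b v then s else 0) := by
  unfold HH
  rw [spt_val h hs]
  have key : ∀ w, (if side G a b w then sfun n u v s w else 0) =
      (if w = u then (if side G a b u then n - s else 0) else 0) +
        (if w = v then (if side G a b v then s else 0) else 0) := by
    intro w
    unfold sfun
    by_cases h1 : w = u
    · subst h1
      have h2 : w ≠ v := h.ne
      simp only [if_neg h2, if_true, add_zero]
    · by_cases h2 : w = v
      · subst h2
        simp only [if_neg h1, if_true, zero_add]
      · simp only [if_neg h1, if_neg h2, add_zero, ite_self]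
  simp only [key]
  rw [Finset.sum_add_distrib, Finset.sum_ite_eq', Finset.sum_ite_eq',
    if_pos (Finset.mem_univ _), if_pos (Finset.mem_univ _)]

theorem sub_tree (hG : G.IsTree) (hn : 0 < n) : (SubG G n).IsTree := by
  classical
  refine ⟨sub_connected hG.connected hn, ?_⟩
  rw [SimpleGraph.isAcyclic_iff_forall_adj_isBridge]
  rintro x y ⟨a, b, t, hab, ht, rfl, rfl⟩
  rw [SimpleGraph.isBridge_iff]
  intro hr
  obtain ⟨p⟩ := hr
  have hside : ∀ s ≤ n, HH G n a b (spt G n a b s) = s := by
    intro s hs
    rw [HH_spt hab hs, if_neg (side_left hG hab), if_pos (side_right G a b), zero_add]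
  have step : ∀ x' y', (SubG G n).Adj x' y' →
      s(x', y') ≠ s(spt G n a b t, spt G n a b (t + 1)) →
      (t + 1 ≤ HH G n a b x' ↔ t + 1 ≤ HH G n a b y') := by
    rintro x' y' ⟨u, v, s, huv, hs, rfl, rfl⟩ hne
    by_cases he : s(u, v) = s(a, b)
    · rcases Sym2.eq_iff.1 he with ⟨rfl, rfl⟩ | ⟨rfl, rfl⟩
      · rw [hside s hs.le, hside (s + 1) hs]
        constructor
        · omega
        · intro h1
          rcases Nat.lt_or_ge t s with h2 | h2
          · exact h2
          · exfalso
            have h3 : s = t := by omega
            subst h3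
            exact hne rfl
      · rw [spt_swap huv hs.le, spt_swap huv (by omega : s + 1 ≤ n),
          hside (n - s) (Nat.sub_le _ _), hside (n - (s + 1)) (Nat.sub_le _ _)]
        constructor
        · intro h1
          rcases Nat.lt_or_ge t (n - (s + 1)) with h2 | h2
          · exact h2
          · exfalso
            have h3 : n - s = t + 1 := by omega
            have h4 : n - (s + 1) = t := by omega
            apply hne
            rw [spt_swap huv hs.le, spt_swap huv (by omega : s + 1 ≤ n), h3, h4, Sym2.eq_swap]
        · omega
    · have h1 := side_adj huv he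
      rw [HH_spt huv hs.le, HH_spt huv (by omega : s + 1 ≤ n)]
      by_cases hu : side G a b u
      · rw [if_pos hu, if_pos (h1.1 hu), if_pos hu, if_pos (h1.1 hu)]
        omega
      · rw [if_neg hu, if_neg (fun h => hu (h1.2 h)), if_neg hu, if_neg (fun h => hu (h1.2 h))]
  have walk : ∀ x' y', ((SubG G n).deleteEdges
      {s(spt G n a b t, spt G n a b (t + 1))}).Walk x' y' →
      (t + 1 ≤ HH G n a b x' ↔ t + 1 ≤ HH G n a b y') := by
    intro x' y' q
    induction q with
    | nil => exact Iff.rfl
    | cons h q ih =>
      rw [SimpleGraph.deleteEdges_adj] at h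
      exact (step _ _ h.1 (fun he => h.2 (Set.mem_singleton_iff.2 he))).trans ih
  have h1 := walk _ _ p
  rw [hside t ht.le, hside (t + 1) ht] at h1
  omega

end Pool.Agent.DB
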