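import Pool.Agent.DB.Defs

/-!
# DB-T-SubDef: the `n`-fold subdivision of a graph (definitions)

The vertices of the `n`-fold subdivision of `G` are the functions `c : V → ℕ` with sum `n` which are
supported in a vertex or an edge: `spt G n a b t` is `n - t` at `a` and `t` at `b` (the `t`-th
subdivision point of the edge `ab`, counted from `a`); `spt G n a b t = spt G n b a (n - t)`.
`sv G n a = spt G n a a 0` is the old vertex `a`.
-/

namespace Pool.Agent.DB

open Set

variable {V : Type} [Fintype V] [DecidableEq V]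

/-- the function of the `t`-th subdivision point of the edge `ab` -/
def sfun (n : ℕ) (a b : V) (t : ℕ) : V → ℕ :=
  fun v => (if v = a then n - t else 0) + (if v = b then t else 0)

/-- vertices of the `n`-fold subdivision -/
def SubV (G : SimpleGraph V) (n : ℕ) : Type :=
  {c : V → ℕ // ∑ v, c v = n ∧ ∃ a b, (a = b ∨ G.Adj a b) ∧ ∀ v, c v ≠ 0 → v = a ∨ v = b}

noncomputable instance (G : SimpleGraph V) (n : ℕ) : DecidableEq (SubV G n) := Classical.decEq _

noncomputable instance (G : SimpleGraph V) (n : ℕ) : Fintype (SubV G n) := by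
  classical
  have hfin : Finite (SubV G n) := by
    have : Function.Injective (fun c : SubV G n => (fun v => (⟨c.1 v, by
        have h1 : c.1 v ≤ ∑ u, c.1 u :=
          Finset.single_le_sum (f := c.1) (fun i _ => Nat.zero_le _) (Finset.mem_univ v)
        have h2 := c.2.1
        omega⟩ : Fin (n + 1)))) := by
      intro c c' h
      apply Subtype.ext
      funext v
      exact congrArg Fin.val (congrFun h v)
    exact Finite.of_injective _ this
  exact Fintype.ofFinite _

theorem sfun_sum {n : ℕ} (a b : V) {t : ℕ} (ht : t ≤ n) : ∑ v, sfun n a b t v = n := by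
  unfold sfun
  rw [Finset.sum_add_distrib]
  simp
  omega

open Classical in
/-- the `t`-th subdivision point of the edge `ab` (junk value: the vertex `a`) -/
noncomputable def spt (G : SimpleGraph V) (n : ℕ) (a b : V) (t : ℕ) : SubV G n :=
  if h : (a = b ∨ G.Adj a b) ∧ t ≤ n then
    ⟨sfun n a b t, sfun_sum a b h.2, a, b, h.1, fun v hv => by
      by_contra hc
      push Not at hc
      exact hv (by simp [sfun, hc.1, hc.2])⟩
  else
    ⟨sfun n a a 0, sfun_sum a a (Nat.zero_le _), a, a, Or.inl rfl, fun v hv => by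
      by_contra hc
      push Not at hc
      exact hv (by simp [sfun, hc.1])⟩

/-- the old vertex `a` -/
noncomputable def sv (G : SimpleGraph V) (n : ℕ) (a : V) : SubV G n := spt G n a a 0

theorem spt_val {G : SimpleGraph V} {n : ℕ} {a b : V} (h : G.Adj a b) {t : ℕ} (ht : t ≤ n) :
    (spt G n a b t).1 = sfun n a b t := by
  unfold spt
  rw [dif_pos ⟨Or.inr h, ht⟩]

theorem sv_val (G : SimpleGraph V) (n : ℕ) (a : V) :
    (sv G n a).1 = fun v => if v = a then n else 0 := by
  unfold sv spt
  rw [dif_pos ⟨Or.inl rfl, Nat.zero_le _⟩]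
  funext v
  simp [sfun]

theorem spt_zero {G : SimpleGraph V} {n : ℕ} {a b : V} (h : G.Adj a b) :
    spt G n a b 0 = sv G n a := by
  apply Subtype.ext
  rw [spt_val h (Nat.zero_le _), sv_val]
  funext v
  simp [sfun]

theorem spt_swap {G : SimpleGraph V} {n : ℕ} {a b : V} (h : G.Adj a b) {t : ℕ} (ht : t ≤ n) :
    spt G n a b t = spt G n b a (n - t) := by
  apply Subtype.ext
  rw [spt_val h ht, spt_val h.symm (Nat.sub_le _ _)]
  funext v
  simp only [sfun]
  rw [show n - (n - t) = t by omega, add_comm]

theorem spt_top {G : SimpleGraph V} {n : ℕ} {a b : V} (h : G.Adj a b) :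
    spt G n a b n = sv G n b := by
  rw [spt_swap h le_rfl, Nat.sub_self, spt_zero h.symm]

theorem spt_ne_succ {G : SimpleGraph V} {n : ℕ} {a b : V} (h : G.Adj a b) {t : ℕ} (ht : t < n) :
    spt G n a b t ≠ spt G n a b (t + 1) := by
  intro he
  have h1 := congrArg (fun c : SubV G n => c.1 b) he
  simp only [spt_val h ht.le, spt_val h (show t + 1 ≤ n from ht), sfun] at h1
  have hba : b ≠ a := h.symm.ne
  simp [hba] at h1

/-- the `n`-fold subdivision of `G` -/
def SubG (G : SimpleGraph V) (n : ℕ) : SimpleGraph (SubV G n) where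
  Adj x y := ∃ a b t, G.Adj a b ∧ t < n ∧ x = spt G n a b t ∧ y = spt G n a b (t + 1)
  symm := ⟨by
    rintro x y ⟨a, b, t, hab, ht, rfl, rfl⟩
    refine ⟨b, a, n - (t + 1), hab.symm, by omega, ?_, ?_⟩
    · exact spt_swap hab (by omega)
    · rw [show n - (t + 1) + 1 = n - t by omega]
      exact spt_swap hab (by omega)⟩
  loopless := ⟨by
    rintro x ⟨a, b, t, hab, ht, hx, hy⟩
    exact spt_ne_succ hab ht (hx.symm.trans hy)⟩

end Pool.Agent.DB
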